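import Pool.Agent.Helper36.Swap.Det

/-!
# Exchange walks between complementary bases of matroids represented over the complex numbers

Let `M` be a matroid of rank `r` whose ground set `E` is the disjoint union of two bases `A` and `B`.
A cyclic ordering of `E`, starting with the elements of `A`, in which every window of `r` consecutive
elements is a basis is the same as a sequence of bases `J 0 = A, J 1, …, J r = B` with bases
`E \ J t` in which one element of `A` is exchanged for one of `B` at every step. We prove that every
matroid represented over `ℂ` has such a sequence with any number `n` of steps, and bound `n`.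

The proof. Write `f(V)` for the product of the determinants of `V` and `E \ V` with the proper sign,
relative to `A` and `B`. For every set `K` with `r - 1` elements the sum of `f(K ∪ {z})` over all
`z ∈ E \ K` vanishes: `f` is in the Specht module of shape `(r, r)`. A function with this property is
symmetric up to the sign `(-1) ^ r` under taking complements. If there were no short path from `A` to
`B` in the support of `f`, the function `w(V) f(V) - w(E \ V) f(V)`, where the weight `w` decays
exponentially with the distance from `A`, would be antisymmetric, hence orthogonal to the Specht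
module, and violate the spectral inequality there.
-/

set_option autoImplicit false

namespace Pool.Agent.Results.MP_f2948c_co.ExchangeWalks

/-- `J 0 = A, J 1, …, J n = B` are bases of `M`, their complements are bases as well, and each of
them arises from the preceding one by exchanging one element. -/
def IsExchangeWalk {α : Type*} (M : Matroid α) (A B : Set α) (n : ℕ) (J : ℕ → Set α) : Prop :=
  J 0 = A ∧ J n = B ∧ (∀ t ≤ n, M.IsBase (J t) ∧ M.IsBase (M.E \ J t)) ∧
    ∀ t < n, ∃ x ∈ J t, ∃ y ∉ J t, J (t + 1) = insert y (J t \ {x})

/-- The determinant of the vectors `v (c 0), …, v (c (r - 1))`. -/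
noncomputable def determinant {α : Type*} {r : ℕ} (v : α → Fin r → ℂ) (c : Fin r → α) : ℂ :=
  (Matrix.of fun i j => v (c j) i).det

/-- Two complementary bases of a matroid represented over `ℂ` are joined by an exchange walk. -/
theorem result {α : Type*} {M : Matroid α} {r : ℕ} {v : α → Fin r → ℂ}
    -- `v` represents `M`
    (hv : ∀ I ⊆ M.E, M.Indep I ↔ LinearIndepOn ℂ v I)
    -- the ground set is the disjoint union of the bases `A` and `B`
    {a b : Fin r → α} (ha : Function.Injective a)
    (hA : M.IsBase (Set.range a)) (hB : M.IsBase (Set.range b))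
    (hd : Disjoint (Set.range a) (Set.range b)) (hE : Set.range a ∪ Set.range b = M.E) :
    ∃ (n : ℕ) (J : ℕ → Set α), IsExchangeWalk M (Set.range a) (Set.range b) n J ∧
      ∀ m : ℕ, (∀ c d : Fin r → α, Set.range c ∪ Set.range d = M.E →
        ‖determinant v c‖ * ‖determinant v d‖ ≤
          2 ^ m * (‖determinant v a‖ * ‖determinant v b‖)) → n ≤ 2 * r * (r + m + 2) := by
  classical
  have hex : ∃ m : ℕ, ∀ c d : Fin r → α, Set.range c ∪ Set.range d = M.E →
        ‖determinant v c‖ * ‖determinant v d‖ ≤
          2 ^ m * (‖determinant v a‖ * ‖determinant v b‖) := by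
    have hEf : M.E.Finite := by
      rw [← hE]
      exact (Set.finite_range a).union (Set.finite_range b)
    have hfin : {p : (Fin r → α) × (Fin r → α) |
        Set.range p.1 ∪ Set.range p.2 = M.E}.Finite := by
      refine Set.Finite.subset ((Set.Finite.pi' fun _ => hEf).prod (Set.Finite.pi' fun _ => hEf))
        ?_
      rintro ⟨c, d⟩ h
      have h' : Set.range c ∪ Set.range d = M.E := h
      refine ⟨fun i => ?_, fun i => ?_⟩
      · rw [← h']
        exact Or.inl ⟨i, rfl⟩
      · rw [← h']
        exact Or.inr ⟨i, rfl⟩
    obtain ⟨C, hC⟩ := (hfin.image fun p : (Fin r → α) × (Fin r → α) =>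
      ‖determinant v p.1‖ * ‖determinant v p.2‖).bddAbove
    have hpos : 0 < ‖determinant v a‖ * ‖determinant v b‖ := by
      obtain ⟨h1, h2⟩ := Helper36.Swap.dt_ne_zero hv ha hA hB hd hE
      exact mul_pos (norm_pos_iff.2 h1) (norm_pos_iff.2 h2)
    obtain ⟨m, hm⟩ := pow_unbounded_of_one_lt (C / (‖determinant v a‖ * ‖determinant v b‖))
      (one_lt_two : (1 : ℝ) < 2)
    refine ⟨m, fun c d h => ?_⟩
    rw [div_lt_iff₀ hpos] at hm
    exact (hC ⟨(c, d), h, rfl⟩).trans hm.le
  obtain ⟨n, J, hn, hJ⟩ := Helper36.Swap.complex_walk hv ha hA hB hd hE (Nat.find_spec hex)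
  refine ⟨n, J, hJ, fun m hm => hn.trans ?_⟩
  have := Nat.find_min' hex hm
  gcongr

end Pool.Agent.Results.MP_f2948c_co.ExchangeWalks
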