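import Pool.Agent.Helper20.CY.Final

/-!
# MP_f2948c_co: the cyclic ordering conjecture holds for gammoids

Let `M` be a gammoid whose ground set is the disjoint union of `k ≥ 1` bases.  Then the ground
set has a cyclic ordering in which every window of `|E| / k` consecutive elements is a base.

Definitions (file `Pool/Agent/Helper20/CY/Defs.lean`): `IsPathTo`, `Linked`, `IsGammoid`.

Proof: every base gives a matching (`L1.lean`) of the vertices of the digraph into the set
`V ⊕ Fin r`; the sum of the `k` matchings is a fractional object from which one extracts a
laminar family of subsets of the ground set such that every set of elements which is balanced on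
all members of the family is linked (`C2.lean`, `C.lean`, `L2.lean`); a laminar family can be
arranged on a cycle such that all windows are balanced on all its members (`G.lean`).
-/

namespace Pool.Agent.Results.MP_f2948c_co.Gammoids

open Helper20.CY

/-- The cyclic ordering conjecture (Kajitani, Ueno, Miyano) for gammoids. -/
theorem result {α : Type*} (M : Matroid α) (hM : IsGammoid M) (hfin : M.E.Finite)
    (k : ℕ) (hk : 0 < k) (B : Fin k → Set α) (hB : ∀ i, M.IsBase (B i))
    (hdisj : ∀ i j, i ≠ j → Disjoint (B i) (B j)) (hcov : ⋃ i, B i = M.E) :
    ∃ σ : Fin M.E.ncard ≃ M.E, ∀ i : ℕ,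
      M.IsBase {x | ∃ j < M.E.ncard / k, ∃ h : 0 < M.E.ncard,
        x = σ ⟨(i + j) % M.E.ncard, Nat.mod_lt _ h⟩} :=
  gammoid_cyclic M hM hfin k hk B hB hdisj hcov

end Pool.Agent.Results.MP_f2948c_co.Gammoids
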