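import Pool.Agent.Helper86.CO.Main

/-!
# MP_f2948c_co: the cyclic ordering conjecture for fixed rank and many bases

For every rank `r` there is a number `K` such that every matroid of rank `r` whose ground set is the
disjoint union of `k ≥ K` bases has a cyclic ordering of the ground set in which every window of
`|E| / k = r` consecutive elements is a base.
-/

namespace Pool.Agent.Results.MP_f2948c_co.LargeK

open Set Helper86.CO

universe u

/-- The cyclic ordering conjecture (Kajitani, Ueno, Miyano) holds for all matroids of rank `r` which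
are disjoint unions of `k ≥ K(r)` bases. -/
theorem result (r : ℕ) :
    ∃ K : ℕ, ∀ (α : Type u) (M : Matroid α), M.eRank = r →
      ∀ k : ℕ, K ≤ k → 0 < k → ∀ B : Fin k → Set α, (∀ i, M.IsBase (B i)) →
      (∀ i j, i ≠ j → Disjoint (B i) (B j)) → ⋃ i, B i = M.E →
      ∃ σ : Fin M.E.ncard ≃ M.E, ∀ i : ℕ,
        M.IsBase {x | ∃ j < M.E.ncard / k, ∃ h : 0 < M.E.ncard,
          x = σ ⟨(i + j) % M.E.ncard, Nat.mod_lt _ h⟩} := by
  rcases Nat.eq_zero_or_pos r with hr0 | hr0
  · -- rank zero
    subst hr0
    refine ⟨0, fun α M hrk k _ hk B hB hdisj hcov => ?_⟩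
    have hBe : ∀ i, B i = ∅ := by
      intro i
      rw [← encard_eq_zero, (hB i).encard_eq_eRank, hrk]
      rfl
    have hE : M.E = ∅ := by
      rw [← hcov]
      simp [hBe]
    have hn : M.E.ncard = 0 := by rw [hE, ncard_empty]
    have : IsEmpty (Fin M.E.ncard) := by rw [hn]; infer_instance
    have : IsEmpty M.E := by rw [hE]; infer_instance
    refine ⟨Equiv.equivOfIsEmpty _ _, fun i => ?_⟩
    refine (congrArg M.IsBase ?_).mp (hB ⟨0, hk⟩)
    rw [hBe]
    ext x
    simp [hn]
  · obtain ⟨K, hK⟩ := large_univ.{u} r hr0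
    refine ⟨K, fun α M hrk k hKk hk B hB hdisj hcov => ?_⟩
    have hBfin : ∀ i, (B i).Finite := by
      intro i
      rw [← encard_ne_top_iff, (hB i).encard_eq_eRank, hrk]
      exact ENat.natCast_ne_top r
    have hEfin : M.E.Finite := by
      rw [← hcov]
      exact finite_iUnion hBfin
    have : Finite M.E := hEfin
    have hBr : ∀ i, (B i).ncard = r := by
      intro i
      have := (hB i).encard_eq_eRank
      rw [hrk, ← (hBfin i).cast_ncard_eq] at this
      exact_mod_cast this
    have hcard : M.E.ncard = k * r := by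
      rw [← hcov, ncard_iUnion_of_finite hBfin (fun i j hij => hdisj i j hij),
        finsum_eq_sum_of_fintype, Finset.sum_congr rfl fun i _ => hBr i]
      simp
    -- pass to the ground set
    set N := M.restrictSubtype M.E with hN
    have hbase : ∀ W : Set M.E, N.IsBase W ↔ M.IsBase (Subtype.val '' W) := by
      intro W
      rw [hN, Matroid.restrictSubtype_ground_isBase_iff]
    have hNE : N.E = univ := by
      rw [hN, Matroid.restrictSubtype_ground]
    have himg : ∀ i, Subtype.val '' (Subtype.val ⁻¹' (B i) : Set M.E) = B i := by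
      intro i
      rw [Subtype.image_preimage_coe, inter_eq_right]
      exact (hB i).subset_ground
    have hB' : ∀ i, N.IsBase (Subtype.val ⁻¹' (B i)) := fun i => by
      rw [hbase, himg]
      exact hB i
    have hNr : N.eRank = r := by
      rw [← (hB' ⟨0, hk⟩).encard_eq_eRank, ← hrk, ← (hB ⟨0, hk⟩).encard_eq_eRank]
      conv_rhs => rw [← himg ⟨0, hk⟩]
      rw [Subtype.val_injective.encard_image]
    obtain ⟨ρ, hρ⟩ := hK N hNE hNr k hKk (fun i => Subtype.val ⁻¹' (B i))
      hB'
      (fun i j hij => (hdisj i j hij).preimage _)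
      (by
        rw [← preimage_iUnion, hcov]
        ext x
        simp)
    obtain ⟨σ, hσ⟩ := cyclic_of_path hr0 hk (by rw [← hcard]; rfl) hNr hρ
    rw [hcard]
    refine ⟨σ, fun i => ?_⟩
    have h := (hbase _).1 (hσ i)
    refine (congrArg M.IsBase ?_).mp h
    rw [Nat.mul_div_cancel_left _ hk]
    ext x
    constructor
    · rintro ⟨_, ⟨j, hj, h0, rfl⟩, rfl⟩
      exact ⟨j, hj, h0, rfl⟩
    · rintro ⟨j, hj, h0, rfl⟩
      exact ⟨_, ⟨j, hj, h0, rfl⟩, rfl⟩

end Pool.Agent.Results.MP_f2948c_co.LargeK
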