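import Pool.Agent.Helper87.NC.Final

/-!
# MP_f2948c_co: near-cyclic orderings of all matroids with prescribed bases

Let `M` be a matroid whose ground set is the disjoint union of `k ≥ 1` bases `B a`, each of size
`r = |E| / k`.  The cyclic ordering conjecture asks for a cyclic ordering of the ground set in which
all windows of `r` consecutive elements are bases.  We find orderings in which the given bases `B a`
are blocks of consecutive elements and in which at most one of the `k` windows starting at the
`t`-th elements of the blocks is not a base; the block with the exceptional window can be prescribed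
for every `t`, all windows have rank at least `r - 1`, and no two consecutive windows fail, if one
wishes.

`window σ i l` (file `Pool/Agent/Helper87/NC/Order.lean`) is the set of the `l` consecutive elements
of the cyclic ordering `σ` with the indices `i, …, i + l - 1`, taken modulo the size of the ground
set.

Proof: if `K a ∪ D a` and `K a ∪ D (a + 1)` are bases (`a` modulo `k`), consider the digraph with an
arc from `e ∈ D a` to `f ∈ D (a + 1)` if `f` is not in the closure of `K a ∪ D a - e`.  A shortest
closed walk has no chords, so consecutive elements are parallel modulo `K a` and the elements of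
`D a` outside the walk (`Min.lean`).  So one can exchange the elements of the walk one after another,
the place where the next walk is cut being free (`Chain.lean`), and iterate.
-/

set_option autoImplicit false

namespace Pool.Agent.Results.MP_f2948c_co.NearCyclic

open Set Helper87.NC

/-- Near-cyclic orderings of all matroids which are disjoint unions of bases. -/
theorem result {α : Type*} (M : Matroid α) (hfin : M.E.Finite)
    -- the ground set is the disjoint union of the bases `B a`
    (k : ℕ) (hk : 0 < k) (B : Fin k → Set α) (hB : ∀ a, M.IsBase (B a))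
    (hdisj : ∀ a b, a ≠ b → Disjoint (B a) (B b)) (hcov : ⋃ a, B a = M.E)
    (r : ℕ) (hr : r = M.E.ncard / k)
    -- all sets with at most `r - δ` elements are independent; this is always the case for `δ = r`
    (δ : ℕ) (hδ : ∀ S ⊆ M.E, S.ncard + δ ≤ r → M.Indep S) :
    -- prescribed exceptional windows
    (∀ β : ℕ → Fin k, ∃ σ : Fin M.E.ncard ≃ M.E,
      (∀ a : Fin k, window σ (a * r) r = B a) ∧
      (∀ (a : Fin k) (t : ℕ), t < r → (t ≤ 1 ∨ 2 * δ + t ≤ r ∨ a ≠ β t) →
        M.IsBase (window σ (a * r + t) r)) ∧
      ∀ i, M.eRank ≤ M.eRk (window σ i r) + 1) ∧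
    -- few exceptional windows, no two of them consecutive
    ∃ σ : Fin M.E.ncard ≃ M.E,
      (∀ a : Fin k, window σ (a * r) r = B a) ∧
      {i : Fin M.E.ncard | ¬ M.IsBase (window σ i r)}.ncard ≤ min (r - 2) (2 * δ - 1) ∧
      ∀ i, (M.IsBase (window σ i r) ∨ M.IsBase (window σ (i + 1) r)) ∧
        M.Indep (window σ i (r - 1)) ∧ M.Spanning (window σ i (r + 1)) := by
  obtain ⟨k, rfl⟩ : ∃ k', k = k' + 1 := ⟨k - 1, by omega⟩
  have hBfin : ∀ a, (B a).Finite := fun a => hfin.subset (hB a).subset_ground
  -- the sizes
  have hsize : ∀ a, (B a).ncard = r := by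
    have h1 : ∀ a, (B a).ncard = (B 0).ncard := fun a => (hB a).ncard_eq_ncard_of_isBase (hB 0)
    have h2 : M.E.ncard = (k + 1) * (B 0).ncard := by
      rw [← hcov, ncard_iUnion_of_finite hBfin (fun i j hij => hdisj i j hij)]
      simp only [h1, finsum_eq_sum_of_fintype, Finset.sum_const, Finset.card_univ,
        Fintype.card_fin, smul_eq_mul]
    intro a
    rw [h1, hr, h2, Nat.mul_div_cancel_left _ (Nat.succ_pos k)]
  have hEcard : M.E.ncard = (k + 1) * r := by
    rw [← hcov, ncard_iUnion_of_finite hBfin (fun i j hij => hdisj i j hij)]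
    simp only [hsize, finsum_eq_sum_of_fintype, Finset.sum_const, Finset.card_univ,
      Fintype.card_fin, smul_eq_mul]
  clear hr
  rcases Nat.eq_zero_or_pos r with rfl | hr0
  · -- rank zero
    have hBe : ∀ a, B a = ∅ := fun a => (ncard_eq_zero (hBfin a)).1 (hsize a)
    have hE : M.E = ∅ := by
      rw [← hcov]
      simp [hBe]
    have hn : M.E.ncard = 0 := by rw [hE, ncard_empty]
    have hempty : M.IsBase ∅ := by rw [← hBe 0]; exact hB 0
    have hwin : ∀ (σ : Fin M.E.ncard ≃ M.E) (i l : ℕ), window σ i l = ∅ := by
      intro σ i l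
      ext x
      simp [window, hn]
    have hσ : Nonempty (Fin M.E.ncard ≃ M.E) := by
      have : IsEmpty (Fin M.E.ncard) := by rw [hn]; infer_instance
      have : IsEmpty M.E := by rw [hE]; infer_instance
      exact ⟨Equiv.equivOfIsEmpty _ _⟩
    obtain ⟨σ⟩ := hσ
    refine ⟨fun β => ⟨σ, ?_, ?_, ?_⟩, σ, ?_, ?_, ?_⟩
    · intro a; rw [hwin, hBe]
    · intro a t ht; omega
    · intro i
      have : M.eRank = 0 := by rw [← hempty.encard_eq_eRank]; simp
      rw [this]
      exact zero_le
    · intro a; rw [hwin, hBe]
    · have : {i : Fin M.E.ncard | ¬ M.IsBase (window σ i 0)} = ∅ := by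
        ext i
        simp [hwin, hempty]
      rw [this, ncard_empty]
      exact Nat.zero_le _
    · intro i
      rw [hwin, hwin, hwin]
      exact ⟨Or.inl hempty, hempty.indep, hempty.spanning⟩
  · obtain ⟨N, hN⟩ : ∃ N, N = M.E.ncard := ⟨_, rfl⟩
    rw [← hN] at hEcard ⊢
    clear hN
    subst hEcard
    have hval : ∀ a : Fin (k + 1), (((a : ℕ) : ZMod (k + 1))) = a :=
      fun a => ZMod.natCast_zmod_val (n := k + 1) a
    constructor
    · intro β
      obtain ⟨σ, h1, h2, h3⟩ := exists_near (k := k + 1) hr0 B hB hBfin hsize hdisj hcov hδ β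
      refine ⟨σ, ?_, ?_, h3⟩
      · intro a
        have h4 := h1 a
        rwa [hval a] at h4
      · intro a t ht hcase
        refine h2 a t ht ?_
        rw [hval a]
        exact hcase
    · obtain ⟨σ, h1, h2, h3, h4, h5⟩ := exists_near' (k := k + 1) hr0 B hB hBfin hsize hdisj hcov hδ
      refine ⟨σ, ?_, h2, fun i => ⟨h3 i, h4 i, h5 i⟩⟩
      intro a
      have h6 := h1 a
      rwa [hval a] at h6

end Pool.Agent.Results.MP_f2948c_co.NearCyclic
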